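import Pool.Agent.Lib.MP_055fa7_gt.Asm

open Set Pool.Agent.Lib.MP_36248f_gt Pool.Agent.Lib.MP_055fa7_gt

/-- A hyperbolic knot complement with a properly embedded, non-compact, totally geodesic surface
that is not homeomorphic to the interior of any compact connected surface with boundary `K`. -/
theorem Pool.Agent.Results.MP_055fa7_gt.Geodesic.result :
    ∃ (K : Set S3) (Γ : Subgroup SL2C) (π : H3 → S3) (P : Set H3),
    IsKnot K ∧ IsHyp K Γ π ∧ IsPlane P ∧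
    (∀ γ ∈ Γ, act γ '' P = P ∨ Disjoint (act γ '' P) P) ∧ IsConnected (π '' P) ∧
    (∀ x ∈ π '' P, ∃ U : Set S3, IsOpen U ∧ x ∈ U ∧ Nonempty (↥(U ∩ π '' P) ≃ₜ ℝ × ℝ)) ∧
    (∀ Q : Set S3, IsCompact Q → Q ⊆ Kᶜ → IsCompact (Q ∩ π '' P)) ∧ ¬IsCompact (π '' P) ∧
    ∀ S : Set S3, Spans K S → IsEmpty (↥(π '' P) ≃ₜ ↥S) :=
  Pool.Agent.Lib.MP_055fa7_gt.main
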